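import Pool.Agent.E8helper4.FV.Stm3
import Pool.Agent.E8helper13.FV.K6

/-!
# FV3 G3 (helper56): the symmetry of the double integrals with a parameter
-/

set_option autoImplicit false

open Complex MeasureTheory Metric Set Filter Topology ComplexConjugate

namespace Pool.Agent.E8helper56.FV

open Pool.Agent.E8helper4.FV
open Pool.Agent.E8helper13.FV (cont_xx cont_xd conj_int loop_swap)

variable {φ : ℂ → ℂ} {r : ℝ}

/-- the kernel -/
noncomputable def PP (a : ℝ) (φ : ℂ → ℂ) (σ : ℝ) (m : ℤ) (t s : ℝ) : ℂ :=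
  kp m (xx φ t - (Real.exp (-σ) : ℂ) * xx φ s)
    (-(a : ℂ) * (conj (xx φ t) - (Real.exp σ : ℂ) * conj (xx φ s)))

theorem cont_PP (hK1 : K1) (a : ℝ) (hr : 1 < r) (hφ : DifferentiableOn ℂ φ (ball 0 r)) (σ : ℝ)
    (m : ℤ) : Continuous (Function.uncurry (PP a φ σ m)) := by
  have hx := cont_xx hr hφ
  have h1 : Continuous fun p : ℝ × ℝ => (xx φ p.1 - (Real.exp (-σ) : ℂ) * xx φ p.2,
      -(a : ℂ) * (conj (xx φ p.1) - (Real.exp σ : ℂ) * conj (xx φ p.2))) := by
    have e1 : Continuous fun p : ℝ × ℝ => xx φ p.1 := hx.comp continuous_fst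
    have e2 : Continuous fun p : ℝ × ℝ => xx φ p.2 := hx.comp continuous_snd
    exact (e1.sub (continuous_const.mul e2)).prodMk (continuous_const.mul
      ((continuous_conj.comp e1).sub (continuous_const.mul (continuous_conj.comp e2))))
  obtain ⟨h2, _⟩ := hK1 m
  have h3 : Function.uncurry (PP a φ σ m) = fun p : ℝ × ℝ => (fun q : ℂ × ℂ => kp m q.1 q.2)
      (xx φ p.1 - (Real.exp (-σ) : ℂ) * xx φ p.2,
        -(a : ℂ) * (conj (xx φ p.1) - (Real.exp σ : ℂ) * conj (xx φ p.2))) := by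
    funext p
    rfl
  rw [h3]
  exact h2.comp h1

theorem conj_PP (hK1 : K1) (hK1b : K1b) {a : ℝ} (ha : 0 < a) (σ : ℝ) (m : ℤ) (t s : ℝ) :
    conj (PP a φ σ m t s) =
      ((a : ℂ) ^ (-m) * (Real.exp (-σ * m) : ℂ)) * PP a φ σ (-m) s t := by
  have ha' : (a : ℂ) ≠ 0 := by exact_mod_cast ha.ne'
  have he : (Real.exp σ : ℂ) ≠ 0 := by exact_mod_cast (Real.exp_pos σ).ne'
  have hee : (Real.exp σ : ℂ) * (Real.exp (-σ) : ℂ) = 1 := by
    rw [← ofReal_mul, ← Real.exp_add, add_neg_cancel, Real.exp_zero, ofReal_one]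
  obtain ⟨_, _, _, _, _, hsym, _, hconj, _⟩ := hK1 m
  obtain ⟨_, _, _, hscal, _⟩ := hK1b
  unfold PP
  rw [hconj, hsym]
  simp only [map_mul, map_sub, map_neg, conj_conj, conj_ofReal]
  have h1 := hscal (-m) ((a : ℂ) * (Real.exp σ : ℂ)) (xx φ s - (Real.exp (-σ) : ℂ) * xx φ t)
    (conj (xx φ t) - (Real.exp (-σ) : ℂ) * conj (xx φ s)) (mul_ne_zero ha' he)
  have e1 : (a : ℂ) * (Real.exp σ : ℂ) * (xx φ s - (Real.exp (-σ) : ℂ) * xx φ t) =
      -(a : ℂ) * (xx φ t - (Real.exp σ : ℂ) * xx φ s) := by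
    linear_combination (-(a : ℂ) * xx φ t) * hee
  have e2 : (a : ℂ) * (Real.exp σ : ℂ) *
      (conj (xx φ t) - (Real.exp (-σ) : ℂ) * conj (xx φ s)) =
      -(a : ℂ) * (conj (xx φ s) - (Real.exp σ : ℂ) * conj (xx φ t)) := by
    linear_combination (-(a : ℂ) * conj (xx φ s)) * hee
  rw [e1, e2] at h1
  rw [h1]
  congr 1
  rw [mul_zpow]
  congr 1
  rw [← ofReal_zpow]
  congr 1
  rw [← Real.rpow_intCast, ← Real.exp_mul]
  congr 1
  push_cast
  ring

theorem loop_PP (hC1 : C1) {lam : ℝ} (hr : 1 < r)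
    (hφ : DifferentiableOn ℂ φ (ball 0 r)) (hinj : InjOn φ (ball 0 r)) (hlam : 0 < lam)
    (hsol : Pool.Agent.Results.MP_83fd13_an.BranchSingularities.Solvable (φ '' ball 0 1) lam)
    (σ : ℝ) (m : ℤ) (s : ℝ) :
    ∫ t in (0 : ℝ)..(2 * Real.pi), PP (lam / 4) φ σ m s t * xd φ t = 0 := by
  have hx := cont_xx hr hφ
  have hd := cont_xd hr hφ
  have h1 : ∀ t, PP (lam / 4) φ σ m s t * xd φ t = 1 / (2 * Real.pi) *
      ∫ τ in (0 : ℝ)..(2 * Real.pi), exp (exp ((τ : ℂ) * I) *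
        (xx φ s - (Real.exp (-σ) : ℂ) * xx φ t) +
        exp (-((τ : ℂ) * I)) * (-((lam / 4 : ℝ) : ℂ) *
          (conj (xx φ s) - (Real.exp σ : ℂ) * conj (xx φ t))) -
        (m : ℂ) * (τ : ℂ) * I) * xd φ t := by
    intro t
    unfold PP kp
    rw [intervalIntegral.integral_mul_const, mul_assoc]
  simp only [h1]
  rw [intervalIntegral.integral_const_mul, intervalIntegral_intervalIntegral_swap]
  · have h2 : ∀ τ : ℝ, ∫ t in (0 : ℝ)..(2 * Real.pi),
        exp (exp ((τ : ℂ) * I) * (xx φ s - (Real.exp (-σ) : ℂ) * xx φ t) +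
        exp (-((τ : ℂ) * I)) * (-((lam / 4 : ℝ) : ℂ) *
          (conj (xx φ s) - (Real.exp σ : ℂ) * conj (xx φ t))) -
        (m : ℂ) * (τ : ℂ) * I) * xd φ t = 0 := by
      intro τ
      have hαβ : (-(exp ((τ : ℂ) * I) * (Real.exp (-σ) : ℂ))) *
          (((lam / 4 : ℝ) : ℂ) * exp (-((τ : ℂ) * I)) * (Real.exp σ : ℂ)) =
          -((lam / 4 : ℝ) : ℂ) := by
        have e1 : exp ((τ : ℂ) * I) * exp (-((τ : ℂ) * I)) = 1 := by
          rw [← exp_add, add_neg_cancel, exp_zero]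
        have e2 : (Real.exp (-σ) : ℂ) * (Real.exp σ : ℂ) = 1 := by
          rw [← ofReal_mul, ← Real.exp_add, neg_add_cancel, Real.exp_zero, ofReal_one]
        calc (-(exp ((τ : ℂ) * I) * (Real.exp (-σ) : ℂ))) *
            (((lam / 4 : ℝ) : ℂ) * exp (-((τ : ℂ) * I)) * (Real.exp σ : ℂ)) =
            -((lam / 4 : ℝ) : ℂ) * (exp ((τ : ℂ) * I) * exp (-((τ : ℂ) * I))) *
              ((Real.exp (-σ) : ℂ) * (Real.exp σ : ℂ)) := by ring
          _ = _ := by rw [e1, e2, mul_one, mul_one]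
      have h3 := hC1 φ r lam hr hφ hinj hlam hsol _ _ hαβ
      rw [circleIntegral] at h3
      have h4 : ∀ t : ℝ, exp (exp ((τ : ℂ) * I) * (xx φ s - (Real.exp (-σ) : ℂ) * xx φ t) +
          exp (-((τ : ℂ) * I)) * (-((lam / 4 : ℝ) : ℂ) *
            (conj (xx φ s) - (Real.exp σ : ℂ) * conj (xx φ t))) -
          (m : ℂ) * (τ : ℂ) * I) * xd φ t =
          exp (exp ((τ : ℂ) * I) * xx φ s -
            exp (-((τ : ℂ) * I)) * ((lam / 4 : ℝ) : ℂ) * conj (xx φ s) -
            (m : ℂ) * (τ : ℂ) * I) *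
          (deriv (circleMap 0 1) t • (exp ((-(exp ((τ : ℂ) * I) * (Real.exp (-σ) : ℂ))) *
              φ (circleMap 0 1 t) +
            (((lam / 4 : ℝ) : ℂ) * exp (-((τ : ℂ) * I)) * (Real.exp σ : ℂ)) *
              conj (φ (circleMap 0 1 t))) *
            deriv φ (circleMap 0 1 t))) := by
        intro t
        have hcm : circleMap 0 1 t = exp ((t : ℂ) * I) := by
          simp [circleMap]
        rw [deriv_circleMap, hcm, smul_eq_mul]
        unfold xd xx
        have h5 : exp (exp ((τ : ℂ) * I) * (φ (exp ((s : ℂ) * I)) -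
              (Real.exp (-σ) : ℂ) * φ (exp ((t : ℂ) * I))) +
            exp (-((τ : ℂ) * I)) * (-((lam / 4 : ℝ) : ℂ) * (conj (φ (exp ((s : ℂ) * I))) -
              (Real.exp σ : ℂ) * conj (φ (exp ((t : ℂ) * I))))) - (m : ℂ) * (τ : ℂ) * I) =
            exp (exp ((τ : ℂ) * I) * φ (exp ((s : ℂ) * I)) -
            exp (-((τ : ℂ) * I)) * ((lam / 4 : ℝ) : ℂ) * conj (φ (exp ((s : ℂ) * I))) -
            (m : ℂ) * (τ : ℂ) * I) * exp ((-(exp ((τ : ℂ) * I) * (Real.exp (-σ) : ℂ))) *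
              φ (exp ((t : ℂ) * I)) +
            (((lam / 4 : ℝ) : ℂ) * exp (-((τ : ℂ) * I)) * (Real.exp σ : ℂ)) *
              conj (φ (exp ((t : ℂ) * I)))) := by
          rw [← exp_add]
          congr 1
          ring
        rw [h5]
        ring
      simp only [h4]
      rw [intervalIntegral.integral_const_mul, h3, mul_zero]
    simp only [h2]
    simp
  · have hc : Continuous (Function.uncurry fun t τ : ℝ =>
        exp (exp ((τ : ℂ) * I) * (xx φ s - (Real.exp (-σ) : ℂ) * xx φ t) +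
        exp (-((τ : ℂ) * I)) * (-((lam / 4 : ℝ) : ℂ) *
          (conj (xx φ s) - (Real.exp σ : ℂ) * conj (xx φ t))) -
        (m : ℂ) * (τ : ℂ) * I) * xd φ t) := by
      have e1 : Continuous fun p : ℝ × ℝ => xx φ p.1 := hx.comp continuous_fst
      have e2 : Continuous fun p : ℝ × ℝ => xd φ p.1 := hd.comp continuous_fst
      have e3 : Continuous fun p : ℝ × ℝ => conj (xx φ p.1) := continuous_conj.comp e1
      show Continuous fun p : ℝ × ℝ => exp (exp ((p.2 : ℂ) * I) *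
          (xx φ s - (Real.exp (-σ) : ℂ) * xx φ p.1) +
        exp (-((p.2 : ℂ) * I)) * (-((lam / 4 : ℝ) : ℂ) *
          (conj (xx φ s) - (Real.exp σ : ℂ) * conj (xx φ p.1))) -
        (m : ℂ) * (p.2 : ℂ) * I) * xd φ p.1
      refine Continuous.mul (Continuous.cexp ?_) e2
      refine Continuous.sub (Continuous.add ?_ ?_) (by fun_prop)
      · exact (by fun_prop : Continuous fun p : ℝ × ℝ => exp ((p.2 : ℂ) * I)).mul
          (continuous_const.sub (continuous_const.mul e1))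
      · exact (by fun_prop : Continuous fun p : ℝ × ℝ => exp (-((p.2 : ℂ) * I))).mul
          (continuous_const.mul (continuous_const.sub (continuous_const.mul e3)))
    have h6 : IntegrableOn (Function.uncurry fun t τ : ℝ =>
        exp (exp ((τ : ℂ) * I) * (xx φ s - (Real.exp (-σ) : ℂ) * xx φ t) +
        exp (-((τ : ℂ) * I)) * (-((lam / 4 : ℝ) : ℂ) *
          (conj (xx φ s) - (Real.exp σ : ℂ) * conj (xx φ t))) -
        (m : ℂ) * (τ : ℂ) * I) * xd φ t)
        (uIcc 0 (2 * Real.pi) ×ˢ uIcc 0 (2 * Real.pi)) :=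
      hc.continuousOn.integrableOn_compact (isCompact_uIcc.prod isCompact_uIcc)
    exact h6.mono_set (prod_mono uIoc_subset_uIcc uIoc_subset_uIcc)

/-- the symmetry argument -/
theorem core3 (P P' : ℝ → ℝ → ℂ) (xd : ℝ → ℂ) (c : ℂ) (hP : Continuous (Function.uncurry P'))
    (hxd : Continuous xd) {T : ℝ} (hT : 0 ≤ T) (hconj : ∀ t s, conj (P t s) = c * P' s t)
    (hloop : ∀ s, ∫ t in (0 : ℝ)..T, P' s t * xd t = 0) :
    conj (∫ t in (0 : ℝ)..T, (∫ s in (0 : ℝ)..t, P t s * xd s) * conj (xd t)) =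
      -(c * ∫ t in (0 : ℝ)..T, (∫ s in (0 : ℝ)..t, P' t s * xd s) * conj (xd t)) := by
  have h1 : conj (∫ t in (0 : ℝ)..T, (∫ s in (0 : ℝ)..t, P t s * xd s) * conj (xd t)) =
      c * ∫ t in (0 : ℝ)..T, ∫ s in (0 : ℝ)..t, (P' s t * xd t) * conj (xd s) := by
    rw [conj_int, ← intervalIntegral.integral_const_mul]
    refine intervalIntegral.integral_congr fun t _ => ?_
    simp only [map_mul, conj_conj]
    rw [conj_int, ← intervalIntegral.integral_mul_const, ← intervalIntegral.integral_const_mul]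
    refine intervalIntegral.integral_congr fun s _ => ?_
    simp only [map_mul, hconj]
    ring
  have hsw : Continuous (Function.uncurry fun t s => P' s t) :=
    hP.comp continuous_swap
  rw [h1, loop_swap (fun t s => P' s t * xd t) (fun s => conj (xd s))
    (hsw.mul (hxd.comp continuous_fst)) (continuous_conj.comp hxd) hT hloop, mul_neg]

theorem t_G3 : G3 := by
  intro hK1 hK1b hC1 φ r lam hr hφ hinj hlam hsol m σ
  have ha : (0 : ℝ) < lam / 4 := by positivity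
  have hpi : (0 : ℝ) ≤ 2 * Real.pi := by positivity
  exact core3 (PP (lam / 4) φ σ m) (PP (lam / 4) φ σ (-m)) (xd φ) _
    (cont_PP hK1 _ hr hφ σ (-m)) (cont_xd hr hφ) hpi
    (conj_PP hK1 hK1b ha σ m) (loop_PP hC1 hr hφ hinj hlam hsol σ (-m))

end Pool.Agent.E8helper56.FV
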